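import Pool.Agent.E8helper60.NP.StmA
import Pool.Agent.Y63.NV.Infl

/-! # Project NP, piece NP4 (PUSH): the push-forward of the sum of the `p`-regular elements -/

set_option autoImplicit false

open scoped Classical

noncomputable section

namespace Pool.Agent.E8helper68.NP

open Pool.Agent.Y63.NV Pool.Agent.E8helper60.NP

variable {p : ℕ} [hp : Fact p.Prime] {Γ : Type} [Group Γ] [Finite Γ]

omit [Finite Γ] in
/-- a `p`-regular element is determined by its coset among the elements centralising `M` -/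
theorem uniq (M : Subgroup Γ) (hM : IsPGroup p M) (h h' : Γ)
    (hc : h ∈ Subgroup.centralizer (M : Set Γ)) (hr : ¬ p ∣ orderOf h) (hr' : ¬ p ∣ orderOf h')
    (hq : h⁻¹ * h' ∈ M) : h = h' := by
  obtain ⟨m, em⟩ : ∃ m, m = h⁻¹ * h' := ⟨_, rfl⟩
  rw [← em] at hq
  have e1 : h' = h * m := by rw [em]; group
  have hcomm : Commute h m := by
    have := Subgroup.mem_centralizer_iff.mp hc m hq
    exact this.symm
  obtain ⟨k, hk⟩ := hM ⟨m, hq⟩
  have hk' : m ^ p ^ k = 1 := congrArg Subtype.val hk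
  have hdvd : orderOf m ∣ p ^ k := orderOf_dvd_of_pow_eq_one hk'
  have hcop : (orderOf h).Coprime (orderOf m) :=
    Nat.Coprime.coprime_dvd_right hdvd (((hp.out.coprime_iff_not_dvd).mpr hr).symm.pow_right k)
  have e2 := hcomm.orderOf_mul_eq_mul_orderOf_of_coprime hcop
  rw [← e1] at e2
  have e3 : orderOf m = 1 := by
    obtain ⟨j, -, hj⟩ := (Nat.dvd_prime_pow hp.out).mp hdvd
    rcases Nat.eq_zero_or_pos j with h0 | h0
    · rw [hj, h0, pow_zero]
    · exfalso
      apply hr'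
      rw [e2]
      exact Dvd.dvd.mul_left (by rw [hj]; exact dvd_pow_self p (by omega)) _
  rw [orderOf_eq_one_iff] at e3
  rw [e1, e3, mul_one]

/-- existence of a `p`-regular representative -/
theorem exists_reg (K M : Subgroup Γ) [M.Normal] (g : Γ) (hg : g ∈ K)
    (ho : ¬ p ∣ orderOf (g : Γ ⧸ M)) : ∃ a ∈ K, (a : Γ ⧸ M) = g ∧ ¬ p ∣ orderOf a := by
  have hpos : 0 < orderOf g := orderOf_pos g
  obtain ⟨v, r, hr, hv⟩ := Nat.exists_eq_pow_mul_and_not_dvd hpos.ne' p hp.out.one_lt.ne'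
  have hcop : (p ^ v).Coprime r := ((hp.out.coprime_iff_not_dvd).mpr hr).pow_left v
  obtain ⟨k, hk0, hk1⟩ := Nat.chineseRemainder hcop 0 1
  refine ⟨g ^ k, K.pow_mem hg k, ?_, ?_⟩
  · have h1 : orderOf (g : Γ ⧸ M) ∣ orderOf g := orderOf_map_dvd (QuotientGroup.mk' M) g
    have h2 : orderOf (g : Γ ⧸ M) ∣ r := by
      rw [hv] at h1
      exact (((hp.out.coprime_iff_not_dvd).mpr ho).symm.pow_right v).dvd_of_dvd_mul_left h1
    have h3 : (g : Γ ⧸ M) ^ k = (g : Γ ⧸ M) ^ 1 := pow_eq_pow_iff_modEq.mpr (hk1.of_dvd h2)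
    rw [pow_one] at h3
    exact h3
  · intro hd
    apply hr
    refine hd.trans (orderOf_dvd_of_pow_eq_one ?_)
    rw [← pow_mul]
    apply orderOf_dvd_iff_pow_eq_one.mp
    rw [hv]
    exact Nat.mul_dvd_mul_right (Nat.modEq_zero_iff_dvd.mp hk0) r

/-- the fibre of a coset -/
@[ext] structure Fib {Γ : Type} [Group Γ] (M : Subgroup Γ) (x : Γ ⧸ M) : Type where
  /-- the element -/
  val : Γ
  /-- its coset -/
  prop : (val : Γ ⧸ M) = x

/-- conjugation on the fibre -/
instance act {Γ : Type} [Group Γ] (M : Subgroup Γ) [M.Normal] (x : Γ ⧸ M) :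
    MulAction M (Fib M x) where
  smul m a := ⟨(m : Γ) * a.val * (m : Γ)⁻¹, by
    have h1 : ((m : Γ) : Γ ⧸ M) = 1 := (QuotientGroup.eq_one_iff _).mpr m.2
    rw [QuotientGroup.mk_mul, QuotientGroup.mk_mul, QuotientGroup.mk_inv, h1, a.prop, one_mul,
      inv_one, mul_one]⟩
  one_smul a := Fib.ext (by
    change ((1 : M) : Γ) * a.val * ((1 : M) : Γ)⁻¹ = a.val
    simp)
  mul_smul m n a := Fib.ext (by
    change ((m * n : M) : Γ) * a.val * ((m * n : M) : Γ)⁻¹ =
      (m : Γ) * ((n : Γ) * a.val * (n : Γ)⁻¹) * (m : Γ)⁻¹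
    rw [Subgroup.coe_mul]
    group)

instance finFib {Γ : Type} [Group Γ] [Finite Γ] (M : Subgroup Γ) (x : Γ ⧸ M) :
    Finite (Fib M x) := Finite.of_injective Fib.val fun _ _ h => Fib.ext h

theorem mem_fil {α : Type} [Fintype α] {P : α → Prop} {inst : DecidablePred P} (a : α) :
    a ∈ @Finset.filter α P inst Finset.univ ↔ P a := by
  rw [Finset.mem_filter]
  exact and_iff_right (Finset.mem_univ a)

theorem t_PUSH : S_PUSH := by
  intro p hp F _ _ Γ _ _ N M hMn hM hcl
  funext x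
  have hΓ : Fintype Γ := Fintype.ofFinite Γ
  have hA : Fintype (Fib M x) := Fintype.ofFinite _
  have hval : ∀ (m : M) (a : Fib M x), (m • a).val = (m : Γ) * a.val * (m : Γ)⁻¹ :=
    fun m a => rfl
  have key := sum_fixed (F := F) hM (fun a : Fib M x => reg (F := F) p N a.val) (fun m a => by
    change reg p N (m • a).val = _
    rw [hval]
    exact hcl _ _)
  have e1 : push M (reg (F := F) p N) x = ∑ a : Fib M x, reg (F := F) p N a.val := by
    unfold push
    rw [finsum_eq_sum_of_fintype, ← Finset.sum_filter]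
    refine (Finset.sum_bij (fun (a : Fib M x) _ => a.val) ?_ ?_ ?_ ?_).symm
    · intro a _
      rw [mem_fil]
      exact a.prop
    · intro a _ b _ h
      exact Fib.ext h
    · intro g hg
      rw [mem_fil] at hg
      exact ⟨⟨g, hg⟩, Finset.mem_univ _, rfl⟩
    · intro a _
      rfl
  rw [e1, key]
  -- the fixed points
  have hfix : ∀ a : Fib M x, (∀ m : M, m • a = a) ↔
      a.val ∈ Subgroup.centralizer (M : Set Γ) := by
    intro a
    rw [Subgroup.mem_centralizer_iff]
    constructor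
    · intro h m hm
      have h1 := congrArg Fib.val (h ⟨m, hm⟩)
      rw [hval] at h1
      change m * a.val * m⁻¹ = a.val at h1
      exact mul_inv_eq_iff_eq_mul.mp h1
    · intro h m
      apply Fib.ext
      rw [hval, mul_inv_eq_iff_eq_mul]
      exact h m.1 m.2
  unfold reg
  by_cases hx : x ∈ (N ⊓ Subgroup.centralizer (M : Set Γ)).map (QuotientGroup.mk' M) ∧
      ¬ p ∣ orderOf x
  · rw [if_pos hx]
    obtain ⟨⟨g, hg, hgx⟩, ho⟩ := hx
    have hgx' : (g : Γ ⧸ M) = x := hgx
    obtain ⟨a, ha, hax, har⟩ := exists_reg (N ⊓ Subgroup.centralizer (M : Set Γ)) M g hg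
      (by rw [hgx']; exact ho)
    rw [hgx'] at hax
    refine (Finset.sum_eq_single (⟨a, hax⟩ : Fib M x) ?_ ?_).trans (if_pos ⟨ha.1, har⟩)
    · intro b hb hba
      rw [mem_fil] at hb
      rw [if_neg]
      rintro ⟨hbN, hbr⟩
      apply hba
      apply Fib.ext
      change b.val = a
      have hbc := (hfix b).mp hb
      refine uniq M hM b.val a hbc hbr har ?_
      rw [← QuotientGroup.eq, b.prop, hax]
    · intro hn
      exfalso
      apply hn
      rw [mem_fil]
      exact (hfix _).mpr ha.2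
  · rw [if_neg hx]
    apply Finset.sum_eq_zero
    intro b hb
    rw [mem_fil] at hb
    rw [if_neg]
    rintro ⟨hbN, hbr⟩
    apply hx
    refine ⟨⟨b.val, ⟨hbN, (hfix b).mp hb⟩, b.prop⟩, fun hd => hbr ?_⟩
    refine hd.trans ?_
    have h1 : orderOf (b.val : Γ ⧸ M) ∣ orderOf b.val :=
      orderOf_map_dvd (QuotientGroup.mk' M) b.val
    rwa [b.prop] at h1

end Pool.Agent.E8helper68.NP
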